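import Pool.Agent.Helper98.EY.Assembly

/-!
# Cutoff for the simple exclusion process in every ballistic random environment

Definitions used in the statement: `Conf`, `exch`, `jr`, `genC`, `genM`, `Pt`, `IsStatC`, `tv`,
`tmix`, all in `Pool/Agent/Helper98/EX/Model.lean`. Site `i : Fin N` is the site `i+1` of the
problem and `X i ω` is the environment at that site.
-/

namespace Pool.Agent.Results.MP_157eb8_pr.CutoffBallistic

open MeasureTheory ProbabilityTheory Filter Pool.Agent.Helper98.EX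
open scoped Topology

/-- **Cutoff** for the simple exclusion process on `[N]` with `k N` particles in an i.i.d.
environment `X` with values in `(0,1]`, for every ballistic law (`E ρ < 1`,
`ρ = (1 - X 0) / X 0`). -/
theorem result {Ω : Type} [MeasurableSpace Ω] (P : Measure Ω) [IsProbabilityMeasure P]
    (X : ℕ → Ω → ℝ) (hmeas : ∀ x, Measurable (X x)) (hindep : iIndepFun X P)
    (hident : ∀ x, IdentDistrib (X x) (X 0) P P) (hrng : ∀ x ω, 0 < X x ω ∧ X x ω ≤ 1)
    (hball : ∫⁻ ω, ENNReal.ofReal ((1 - X 0 ω) / X 0 ω) ∂P < 1)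
    (k : ℕ → ℕ) (hk : ∀ N, k N ≤ N)
    (hk0 : 0 < liminf (fun N => (k N : ℝ) / N) atTop)
    (hk1 : limsup (fun N => (k N : ℝ) / N) atTop < 1) :
    (∀ N, 1 ≤ N → ∀ ω, ∃! π : Conf N (k N) → ℝ, IsStatC (fun x => X x ω) N (k N) π) ∧
    ∀ π : (N : ℕ) → Ω → Conf N (k N) → ℝ,
      (∀ N, 1 ≤ N → ∀ ω, IsStatC (fun x => X x ω) N (k N) (π N ω)) →
      ∀ ε : ℝ, 0 < ε → ε < 1 / 2 → ∀ δ : ℝ, 0 < δ →
        Tendsto (fun N => P {ω | δ < |tmix (fun x => X x ω) N (k N) (π N ω) ε /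
          tmix (fun x => X x ω) N (k N) (π N ω) (1 - ε) - 1|}) atTop (𝓝 0) := by
  have hI : IIDE P X := ⟨inferInstance, hmeas, hindep, hident, hrng⟩
  have hM : Mom P X 1 < 1 := by
    unfold Mom
    simpa only [Real.rpow_one] using hball
  obtain ⟨hA, hB⟩ := a_MAIN4 Ω P X k hI hM hk hk0 hk1
  refine ⟨hA, ?_⟩
  intro π hπ ε h1 h2 δ h3
  exact hB π hπ ε δ h1 h2 h3

end Pool.Agent.Results.MP_157eb8_pr.CutoffBallistic
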